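import Pool.Agent.H33.GC.Row3b
import Pool.Agent.H13.WC.Cut
import Pool.Agent.H81.NS.Walls

/-!
Row 5 of project GC (MP_90715c_gt): the geometric part.
-/

open Matrix Set Filter Topology MeasureTheory

namespace Pool.Agent.H33.GC

open Pool.Agent.H90.WC

theorem cont_act (g : G) : Continuous (act g) := continuous_act g

/-- boundary bumping at `0` -/
theorem piece {K : Set (OnePoint ℂ)} (hK : IsCompact K) (hc : IsPreconnected K)
    (h0 : ((0 : ℂ) : OnePoint ℂ) ∈ K) {r : ℝ} (hr : 0 < r)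
    (hq : ∃ y ∈ K, y ∉ ((↑) : ℂ → OnePoint ℂ) '' Metric.ball (0 : ℂ) r) :
    ∃ C : Set ℂ, IsCompact C ∧ IsPreconnected C ∧ (∀ z ∈ C, (z : OnePoint ℂ) ∈ K ∧ ‖z‖ ≤ r) ∧
      (0 : ℂ) ∈ C ∧ ∃ z ∈ C, ‖z‖ = r := by
  obtain ⟨y, hy, hyb⟩ := hq
  have hQ : IsClosed ((((↑) : ℂ → OnePoint ℂ) '' Metric.ball (0 : ℂ) r)ᶜ) :=
    (OnePoint.isOpenEmbedding_coe.isOpenMap _ Metric.isOpen_ball).isClosed_compl
  have hW : IsClosed (((↑) : ℂ → OnePoint ℂ) '' Metric.closedBall (0 : ℂ) r) :=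
    ((isCompact_closedBall (0 : ℂ) r).image OnePoint.continuous_coe).isClosed
  obtain ⟨κ, hsub, hκ1, hκ2, ⟨u, hu1, hu2⟩, ⟨w, hw1, hw2⟩⟩ := bumping hK hc hW
    (isClosed_singleton (x := ((0 : ℂ) : OnePoint ℂ))) hQ
    (by
      intro x _
      by_cases hx : x ∈ ((↑) : ℂ → OnePoint ℂ) '' Metric.ball (0 : ℂ) r
      · exact Or.inl (image_mono Metric.ball_subset_closedBall hx)
      · exact Or.inr (Or.inr hx))
    (by
      intro z _ hz hz'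
      rw [mem_singleton_iff] at hz
      rw [hz] at hz'
      exact hz' ⟨0, Metric.mem_ball_self hr, rfl⟩)
    ⟨_, h0, mem_singleton _⟩ ⟨y, hy, hyb⟩
  have himg : ((↑) : ℂ → OnePoint ℂ) '' (((↑) : ℂ → OnePoint ℂ) ⁻¹' κ) = κ := by
    refine image_preimage_eq_of_subset fun x hx => ?_
    obtain ⟨v, -, hv⟩ := (hsub hx).2
    exact ⟨v, hv⟩
  have hind := OnePoint.isOpenEmbedding_coe (X := ℂ)
  refine ⟨((↑) : ℂ → OnePoint ℂ) ⁻¹' κ, ?_, ?_, ?_, ?_, ?_⟩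
  · rw [hind.isInducing.isCompact_iff, himg]
    exact hκ1
  · rw [← hind.isInducing.isPreconnected_image, himg]
    exact hκ2
  · intro z hz
    refine ⟨(hsub hz).1, ?_⟩
    obtain ⟨v, hv, hv'⟩ := (hsub hz).2
    rw [← OnePoint.coe_injective hv']
    exact mem_closedBall_zero_iff.1 hv
  · rw [mem_singleton_iff] at hu2
    rw [hu2] at hu1
    exact hu1
  · obtain ⟨v, hv, hv'⟩ := (hsub hw1).2
    refine ⟨v, by rw [mem_preimage, hv']; exact hw1, ?_⟩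
    refine le_antisymm (mem_closedBall_zero_iff.1 hv) ?_
    by_contra hlt
    push Not at hlt
    exact hw2 ⟨v, mem_ball_zero_iff.2 hlt, hv'⟩

/-- the frames of a fixed group element diverge -/
theorem diverge (g : G) (R : ℝ) :
    ∀ᶠ k : ℕ in atTop, R < ‖(g * sc k) 0 1‖ ∨ R < ‖(g * sc k) 1 1‖ := by
  have e01 : ∀ k : ℕ, ‖(g * sc k) 0 1‖ = ‖g 0 1‖ * 2 ^ k := by
    intro k
    rw [mul_01, sc_01, sc_11, mul_zero, zero_add, norm_mul, norm_pow]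
    norm_num
  have e11 : ∀ k : ℕ, ‖(g * sc k) 1 1‖ = ‖g 1 1‖ * 2 ^ k := by
    intro k
    rw [mul_11, sc_01, sc_11, mul_zero, zero_add, norm_mul, norm_pow]
    norm_num
  have hlim : ∀ x : ℝ, 0 < x → ∀ᶠ k : ℕ in atTop, R < x * 2 ^ k := by
    intro x hx
    have h1 : Tendsto (fun k : ℕ => x * (2 : ℝ) ^ k) atTop atTop :=
      (tendsto_pow_atTop_atTop_of_one_lt (by norm_num)).const_mul_atTop hx
    exact h1.eventually (eventually_gt_atTop R)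
  by_cases h01 : g 0 1 = 0
  · have h11 : g 1 1 ≠ 0 := by
      intro h
      have := det_eq g
      rw [h01, h] at this
      simp at this
    filter_upwards [hlim _ (norm_pos_iff.2 h11)] with k hk
    exact Or.inr (by rw [e11]; exact hk)
  · filter_upwards [hlim _ (norm_pos_iff.2 h01)] with k hk
    exact Or.inl (by rw [e01]; exact hk)

theorem act_sc_zero (k : ℕ) : act (sc k) ((0 : ℂ) : OnePoint ℂ) = ((0 : ℂ) : OnePoint ℂ) := by
  have h : sc k 1 0 * 0 + sc k 1 1 ≠ 0 := by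
    rw [sc_10, sc_11]
    simp
  rw [act_coe_of_ne h]
  unfold mob
  rw [sc_01]
  simp

/-- the action of `g` in terms of the frame `g * sc k` -/
theorem act_frame (g : G) (k : ℕ) (z : ℂ) :
    act g (z : OnePoint ℂ) = act (g * sc k) (((4 : ℂ) ^ k * z : ℂ) : OnePoint ℂ) := by
  rw [act_mul]
  congr 1
  have h : sc k 1 0 * ((4 : ℂ) ^ k * z) + sc k 1 1 ≠ 0 := by
    rw [sc_10, sc_11]
    simp
  rw [act_coe_of_ne h]
  congr 1
  unfold mob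
  rw [sc_00, sc_01, sc_10, sc_11]
  have h4 : (4 : ℂ) ^ k = 2 ^ k * 2 ^ k := by rw [← mul_pow]; norm_num
  have h2 : (1 / 2 : ℂ) ^ k * 2 ^ k = 1 := by rw [← mul_pow]; norm_num
  have h3 : (2 : ℂ) ^ k ≠ 0 := pow_ne_zero _ two_ne_zero
  rw [h4, zero_mul, zero_add, add_zero, eq_div_iff h3]
  calc z * 2 ^ k = ((1 / 2 : ℂ) ^ k * 2 ^ k) * (2 ^ k * z) := by rw [h2]; ring
    _ = _ := by ring

/-- close to the identity -/
def V0 : Set G := {u | ‖u 0 0 - 1‖ < 1 / 100 ∧ ‖u 0 1‖ < 1 / 100 ∧ ‖u 1 0‖ < 1 / 100 ∧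
  ‖u 1 1 - 1‖ < 1 / 100}

theorem V0_nhds : V0 ∈ 𝓝 (1 : G) := by
  have h : ∀ (i j : Fin 2) (c : ℂ), ((1 : G) i j) = c →
      ∀ᶠ u : G in 𝓝 1, ‖u i j - c‖ < 1 / 100 := by
    intro i j c hc
    have h1 : Tendsto (fun u : G => ‖u i j - c‖) (𝓝 1) (𝓝 ‖(1 : G) i j - c‖) :=
      (((continuous_entry i j).sub continuous_const).norm).tendsto 1
    rw [hc, sub_self, norm_zero] at h1
    exact h1.eventually (gt_mem_nhds (by norm_num))
  filter_upwards [h 0 0 1 (by simp), h 0 1 0 (by simp), h 1 0 0 (by simp), h 1 1 1 (by simp)]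
    with u h1 h2 h3 h4
  rw [sub_zero] at h2 h3
  exact ⟨h1, h2, h3, h4⟩

theorem V0_zero {u : G} (hu : u ∈ V0) : ∃ n : ℂ, act u ((0 : ℂ) : OnePoint ℂ) = (n : OnePoint ℂ) ∧
    ‖n‖ ≤ 1 / 10 := by
  obtain ⟨-, h2, -, h4⟩ := hu
  have h5 : 99 / 100 ≤ ‖u 1 1‖ := by
    have := norm_sub_norm_le (1 : ℂ) (u 1 1)
    rw [norm_one, norm_sub_rev] at this
    linarith
  have hne : u 1 0 * 0 + u 1 1 ≠ 0 := by
    rw [mul_zero, zero_add]
    exact norm_pos_iff.1 (by linarith)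
  refine ⟨_, act_coe_of_ne hne, ?_⟩
  unfold mob
  rw [mul_zero, zero_add, mul_zero, zero_add, norm_div, div_le_iff₀ (by linarith)]
  linarith

theorem V0_far {u : G} (hu : u ∈ V0) {y : OnePoint ℂ}
    (hy : ∀ w : ℂ, y = (w : OnePoint ℂ) → 12 ≤ ‖w‖) {n' : ℂ}
    (hn : act u y = (n' : OnePoint ℂ)) : 10 ≤ ‖n'‖ := by
  obtain ⟨h1, h2, h3, h4⟩ := hu
  have h5 : 99 / 100 ≤ ‖u 0 0‖ := by
    have := norm_sub_norm_le (1 : ℂ) (u 0 0)
    rw [norm_one, norm_sub_rev] at this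
    linarith
  have h6 : ‖u 1 1‖ ≤ 101 / 100 := by
    have := norm_sub_norm_le (u 1 1) 1
    rw [norm_one] at this
    linarith
  induction y using OnePoint.rec with
  | infty =>
    rw [act_infty] at hn
    split_ifs at hn with h0
    · exact absurd hn (OnePoint.infty_ne_coe _)
    · rw [← OnePoint.coe_injective hn, norm_div, le_div_iff₀ (norm_pos_iff.2 h0)]
      linarith
  | coe w =>
    have hw := hy w rfl
    rw [act_coe] at hn
    split_ifs at hn with h0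
    · exact absurd hn (OnePoint.infty_ne_coe _)
    · rw [← OnePoint.coe_injective hn]
      unfold mob
      rw [norm_div, le_div_iff₀ (norm_pos_iff.2 h0)]
      have h7 : ‖u 1 0 * w + u 1 1‖ ≤ 1 / 100 * ‖w‖ + 101 / 100 := by
        refine (norm_add_le _ _).trans (add_le_add ?_ h6)
        rw [norm_mul]
        exact mul_le_mul_of_nonneg_right h3.le (norm_nonneg _)
      have h8 : 99 / 100 * ‖w‖ - 1 / 100 ≤ ‖u 0 0 * w + u 0 1‖ := by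
        have h9 : ‖u 0 0 * w‖ - ‖u 0 1‖ ≤ ‖u 0 0 * w + u 0 1‖ := by
          have := norm_sub_norm_le (u 0 0 * w) (-(u 0 1))
          rw [norm_neg, sub_neg_eq_add] at this
          exact this
        rw [norm_mul] at h9
        have h10 : 99 / 100 * ‖w‖ ≤ ‖u 0 0‖ * ‖w‖ :=
          mul_le_mul_of_nonneg_right h5 (norm_nonneg _)
        linarith
      linarith

/-- `h K` is disjoint from its translates, with the exceptions in `F` -/
def Wan (Γ : Subgroup G) (F : Set G) (K : Set (OnePoint ℂ)) (h : G) : Prop :=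
  ∀ γ ∈ Γ, γ ∉ F → ∀ x ∈ K, ∀ y ∈ K, act γ (act h x) ≠ act h y

theorem Wan.disj {Γ : Subgroup G} {F : Set G} {K : Set (OnePoint ℂ)} {h : G} (H : Wan Γ F K h)
    {γ γ' : G} (hγ : γ ∈ Γ) (hγ' : γ' ∈ Γ) (h1 : γ⁻¹ * γ' ∉ F) {x y : OnePoint ℂ} (hx : x ∈ K)
    (hy : y ∈ K) (e : act (γ * h) x = act (γ' * h) y) : False := by
  refine H (γ⁻¹ * γ') (Γ.mul_mem (Γ.inv_mem hγ) hγ') h1 y hy x hx ?_
  rw [act_mul, act_mul] at e
  rw [act_mul, ← e, act_inv_act]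

theorem Wan.finite {Γ : Subgroup G} {F : Set G} (hF : F.Finite) {K : Set (OnePoint ℂ)} {h : G}
    (H : Wan Γ F K h) (P : OnePoint ℂ) : {γ : G | γ ∈ Γ ∧ ∃ x ∈ K, act (γ * h) x = P}.Finite := by
  by_cases hne : ∃ γ ∈ Γ, ∃ x ∈ K, act (γ * h) x = P
  · obtain ⟨γ, hγ, x, hx, e⟩ := hne
    refine (hF.image fun f => γ * f).subset ?_
    rintro γ' ⟨hγ', y, hy, e'⟩
    by_contra hc
    refine H.disj hγ hγ' ?_ hx hy (e.trans e'.symm)
    intro hm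
    exact hc ⟨_, hm, mul_inv_cancel_left γ γ'⟩
  · refine Set.finite_empty.subset ?_
    rintro γ' ⟨hγ', y, hy, e'⟩
    exact hne ⟨γ', hγ', y, hy, e'⟩

theorem norm_ze_sub_one : ‖ze - 1‖ ≤ 77 / 100 := by
  have h1 : ‖ze - 1‖ ^ 2 ≤ (77 / 100) ^ 2 := by
    rw [← Complex.normSq_eq_norm_sq, Complex.normSq_apply]
    have hre : ze.re = Real.cos (Real.pi / 4) := by
      unfold ze
      exact Complex.exp_ofReal_mul_I_re _
    have him : ze.im = Real.sin (Real.pi / 4) := by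
      unfold ze
      exact Complex.exp_ofReal_mul_I_im _
    rw [Complex.sub_re, Complex.sub_im, hre, him, Real.cos_pi_div_four, Real.sin_pi_div_four]
    simp only [Complex.one_re, Complex.one_im]
    have h2 : Real.sqrt 2 * Real.sqrt 2 = 2 := Real.mul_self_sqrt (by norm_num)
    have h3 : (141 / 100 : ℝ) ≤ Real.sqrt 2 := by
      apply Real.le_sqrt_of_sq_le
      norm_num
    nlinarith
  exact le_of_sq_le_sq h1 (by norm_num)

theorem norm_ze' : ‖ze‖ = 1 := by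
  unfold ze
  exact Complex.norm_exp_ofReal_mul_I _

theorem ze_ne_one : ze ≠ 1 := by
  intro h
  have him : ze.im = Real.sin (Real.pi / 4) := by
    unfold ze
    exact Complex.exp_ofReal_mul_I_im _
  rw [h, Real.sin_pi_div_four] at him
  simp only [Complex.one_im] at him
  have : (0 : ℝ) < Real.sqrt 2 := by positivity
  linarith

/-- the target frame `w ↦ z_i + ρ w` -/
theorem exists_frame (z ρ : ℂ) (hρ : ρ ≠ 0) : ∃ f : G, ∀ w : ℂ,
    act f (w : OnePoint ℂ) = ((z + ρ * w : ℂ) : OnePoint ℂ) := by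
  obtain ⟨s, hs⟩ := IsAlgClosed.exists_pow_nat_eq ρ (n := 2) (by norm_num)
  have hs0 : s ≠ 0 := by
    rintro rfl
    exact hρ (by rw [← hs]; norm_num)
  refine ⟨⟨!![s, z / s; 0, 1 / s], by rw [Matrix.det_fin_two_of]; field_simp; simp⟩, fun w => ?_⟩
  set f : G := ⟨!![s, z / s; 0, 1 / s], by rw [Matrix.det_fin_two_of]; field_simp; simp⟩ with hf
  have f00 : f 0 0 = s := rfl
  have f01 : f 0 1 = z / s := rfl
  have f10 : f 1 0 = 0 := rfl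
  have f11 : f 1 1 = 1 / s := rfl
  have hne : f 1 0 * w + f 1 1 ≠ 0 := by
    rw [f10, f11, zero_mul, zero_add]
    exact one_div_ne_zero hs0
  rw [act_coe_of_ne hne]
  congr 1
  unfold mob
  rw [f00, f01, f10, f11, ← hs]
  field_simp
  ring

/-- one small piece of the loop -/
theorem small_piece {Γ : Subgroup G} {F : Set G} (hF : F.Finite) {K : Set (OnePoint ℂ)} {h : G}
    (H : Wan Γ F K h)
    {b : ℕ → ℂ} {b0 : ℂ} (hb0 : ‖b0‖ = 1)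
    (hC : ∀ᶠ k : ℕ in atTop, ∃ C : Set ℂ, IsCompact C ∧ IsPreconnected C ∧
      (∀ z ∈ C, (z : OnePoint ℂ) ∈ K ∧ ‖(4 : ℂ) ^ k * z‖ ≤ 1) ∧ (0 : ℂ) ∈ C ∧
      ∃ z ∈ C, (4 : ℂ) ^ k * z = b k)
    (hFr : ∀ f : G, ∀ V ∈ 𝓝 f, ∀ ε > (0 : ℝ), ∀ T : ℕ, ∃ k > T, ‖b k - b0‖ < ε ∧
      ∃ γ ∈ Γ, γ * h * sc k ∈ V) {γ' : G} (hγ' : γ' ∈ Γ) {ε : ℝ} (hε : 0 < ε) (hε' : ε ≤ 1 / 20)
    (i : ℕ) : ∃ S : Set ℂ, IsCompact S ∧ IsPreconnected S ∧ (∀ z ∈ S, ‖z - ze ^ i‖ ≤ 4 / 5) ∧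
      (∃ z ∈ S, ‖z - ze ^ i‖ ≤ ε) ∧ (∃ z ∈ S, ‖z - ze ^ (i + 1)‖ ≤ ε) ∧
      ∀ z ∈ S, ∀ y ∈ K, (z : OnePoint ℂ) ≠ act (γ' * h) y := by
  have hb0' : b0 ≠ 0 := norm_pos_iff.1 (by rw [hb0]; norm_num)
  set ρ : ℂ := ze ^ i * (ze - 1) / b0 with hρ
  have hρ0 : ρ ≠ 0 := by
    rw [hρ]
    refine div_ne_zero (mul_ne_zero (pow_ne_zero _ ?_) (sub_ne_zero.2 ze_ne_one)) hb0'
    exact norm_pos_iff.1 (by rw [norm_ze']; norm_num)
  have hρn : ‖ρ‖ ≤ 77 / 100 := by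
    rw [hρ, norm_div, norm_mul, norm_pow, norm_ze', one_pow, one_mul, hb0, div_one]
    exact norm_ze_sub_one
  have hρb : ze ^ i + ρ * b0 = ze ^ (i + 1) := by
    rw [hρ, div_mul_cancel₀ _ hb0', pow_succ]
    ring
  obtain ⟨f, hf⟩ := exists_frame (ze ^ i) ρ hρ0
  have hU1 := mob_near_one 2 (δ := ε / 2) (by positivity)
  -- the neighbourhood
  have hVa : ∀ᶠ u : G in 𝓝 f, u * f⁻¹ ∈ {u' : G | ∀ w : ℂ, ‖w‖ ≤ 2 → u' 1 0 * w + u' 1 1 ≠ 0 ∧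
      ‖mob u' w - w‖ ≤ ε / 2} := by
    have h1 : Tendsto (fun u : G => u * f⁻¹) (𝓝 f) (𝓝 1) := by
      have := (continuous_mul_const f⁻¹).tendsto f
      rwa [mul_inv_cancel] at this
    exact h1 hU1
  have hVb : ∀ᶠ u : G in 𝓝 f, ‖u 0 1‖ < ‖f 0 1‖ + 1 :=
    ((continuous_entry 0 1).norm.tendsto f).eventually (gt_mem_nhds (by linarith))
  have hVc : ∀ᶠ u : G in 𝓝 f, ‖u 1 1‖ < ‖f 1 1‖ + 1 :=
    ((continuous_entry 1 1).norm.tendsto f).eventually (gt_mem_nhds (by linarith))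
  have hdv := (Filter.eventually_all_finite hF).2 fun γ'' _ =>
    diverge (γ' * γ''⁻¹ * h) (max (‖f 0 1‖ + 1) (‖f 1 1‖ + 1))
  obtain ⟨T, hT⟩ := eventually_atTop.1 (hC.and hdv)
  obtain ⟨k, hk, hbk, γ, hγ, hu⟩ := hFr f _ ((hVa.and (hVb.and hVc))) (ε / 4) (by positivity) T
  obtain ⟨⟨C, hC1, hC2, hC3, hC4, zb, hzb, hzb'⟩, hdiv⟩ := hT k hk.le
  set u : G := γ * h * sc k with hudef
  obtain ⟨hu1, hu2, hu3⟩ := hu
  set h' : G := u * f⁻¹ with hh'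
  have hu' : u = h' * f := by rw [hh']; group
  -- `γ⁻¹ γ' ∉ F`
  have hne : γ⁻¹ * γ' ∉ F := by
    intro hm
    have hd' := hdiv _ hm
    have e : γ' * (γ⁻¹ * γ')⁻¹ * h * sc k = u := by
      rw [hudef]
      group
    rw [e] at hd'
    rcases hd' with hd | hd
    · exact absurd ((le_max_left _ _).trans_lt hd) (not_lt.2 hu2.le)
    · exact absurd ((le_max_right _ _).trans_lt hd) (not_lt.2 hu3.le)
  -- the map
  have hbd : ∀ z ∈ C, ‖ze ^ i + ρ * ((4 : ℂ) ^ k * z)‖ ≤ 2 := by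
    intro z hz
    refine (norm_add_le _ _).trans ?_
    rw [norm_pow, norm_ze', one_pow, norm_mul]
    have := mul_le_mul hρn (hC3 z hz).2 (norm_nonneg _) (by norm_num)
    linarith
  have hact : ∀ z ∈ C, act (γ * h) (z : OnePoint ℂ) =
      ((mob h' (ze ^ i + ρ * ((4 : ℂ) ^ k * z)) : ℂ) : OnePoint ℂ) := by
    intro z hz
    rw [act_frame (γ * h) k z, ← hudef, hu', act_mul, hf, act_coe_of_ne (hu1 _ (hbd z hz)).1]
  refine ⟨(fun z => mob h' (ze ^ i + ρ * ((4 : ℂ) ^ k * z))) '' C, ?_, ?_, ?_, ?_, ?_, ?_⟩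
  · refine hC1.image_of_continuousOn ?_
    unfold mob
    refine ContinuousOn.div (by fun_prop) (by fun_prop) fun z hz => (hu1 _ (hbd z hz)).1
  · refine hC2.image _ ?_
    unfold mob
    refine ContinuousOn.div (by fun_prop) (by fun_prop) fun z hz => (hu1 _ (hbd z hz)).1
  · rintro _ ⟨z, hz, rfl⟩
    have h1 := (hu1 _ (hbd z hz)).2
    have h2 : ‖ρ * ((4 : ℂ) ^ k * z)‖ ≤ 77 / 100 := by
      rw [norm_mul]
      have := mul_le_mul hρn (hC3 z hz).2 (norm_nonneg _) (by norm_num)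
      linarith
    have e : mob h' (ze ^ i + ρ * ((4 : ℂ) ^ k * z)) - ze ^ i =
        (mob h' (ze ^ i + ρ * ((4 : ℂ) ^ k * z)) - (ze ^ i + ρ * ((4 : ℂ) ^ k * z))) +
          ρ * ((4 : ℂ) ^ k * z) := by ring
    show ‖mob h' (ze ^ i + ρ * ((4 : ℂ) ^ k * z)) - ze ^ i‖ ≤ 4 / 5
    rw [e]
    refine (norm_add_le _ _).trans ?_
    linarith
  · refine ⟨_, ⟨0, hC4, rfl⟩, ?_⟩
    have h1 := (hu1 _ (hbd 0 hC4)).2
    rw [mul_zero, mul_zero, add_zero] at h1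
    show ‖mob h' (ze ^ i + ρ * ((4 : ℂ) ^ k * 0)) - ze ^ i‖ ≤ ε
    rw [mul_zero, mul_zero, add_zero]
    linarith
  · refine ⟨_, ⟨zb, hzb, rfl⟩, ?_⟩
    have h1 := (hu1 _ (hbd zb hzb)).2
    show ‖mob h' (ze ^ i + ρ * ((4 : ℂ) ^ k * zb)) - ze ^ (i + 1)‖ ≤ ε
    have e : mob h' (ze ^ i + ρ * ((4 : ℂ) ^ k * zb)) - ze ^ (i + 1) =
        (mob h' (ze ^ i + ρ * ((4 : ℂ) ^ k * zb)) - (ze ^ i + ρ * ((4 : ℂ) ^ k * zb))) +
          ρ * (b k - b0) := by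
      rw [← hρb, hzb']
      ring
    rw [e]
    refine (norm_add_le _ _).trans ?_
    rw [norm_mul]
    have h2 : ‖ρ‖ * ‖b k - b0‖ ≤ 77 / 100 * (ε / 4) :=
      mul_le_mul hρn hbk.le (norm_nonneg _) (by norm_num)
    linarith
  · rintro _ ⟨z, hz, rfl⟩ y hy e
    have h1 := hact z hz
    exact H.disj hγ hγ' hne (hC3 z hz).1 hy (h1.trans e)

/-- the core -/
theorem core (hLoop : LoopStmt) {Γ : Subgroup G} {F : Set G} (hF : F.Finite)
    {K : Set (OnePoint ℂ)} (hK : IsCompact K)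
    (hc : IsPreconnected K) (h0 : ((0 : ℂ) : OnePoint ℂ) ∈ K) {y0 : OnePoint ℂ} (hy0 : y0 ∈ K)
    (hy0' : y0 ≠ ((0 : ℂ) : OnePoint ℂ)) {h : G} (H : Wan Γ F K h)
    {b : ℕ → ℂ} {b0 : ℂ} (hb0 : ‖b0‖ = 1)
    (hC : ∀ᶠ k : ℕ in atTop, ∃ C : Set ℂ, IsCompact C ∧ IsPreconnected C ∧
      (∀ z ∈ C, (z : OnePoint ℂ) ∈ K ∧ ‖(4 : ℂ) ^ k * z‖ ≤ 1) ∧ (0 : ℂ) ∈ C ∧
      ∃ z ∈ C, (4 : ℂ) ^ k * z = b k)
    (hFr : ∀ f : G, ∀ V ∈ 𝓝 f, ∀ ε > (0 : ℝ), ∀ T : ℕ, ∃ k > T, ‖b k - b0‖ < ε ∧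
      ∃ γ ∈ Γ, γ * h * sc k ∈ V) : False := by
  -- the finite set of bad elements
  have hBi : {γ : G | γ ∈ Γ ∧ ∃ x ∈ K, act (γ * h) x = OnePoint.infty}.Finite := H.finite hF _
  have hBz : (⋃ i ∈ Iio 8, {γ : G | γ ∈ Γ ∧ ∃ x ∈ K, act (γ * h) x =
      ((ze ^ i : ℂ) : OnePoint ℂ)}).Finite :=
    (Set.finite_Iio 8).biUnion fun i _ => H.finite hF _
  have hB := hBi.union hBz
  have hdiv := (Filter.eventually_all_finite hB).2 fun γ _ => diverge (γ * h) 2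
  -- the far point
  have hfar : ∀ᶠ k : ℕ in atTop, ∀ w : ℂ, y0 = (w : OnePoint ℂ) → 12 ≤ ‖(4 : ℂ) ^ k * w‖ := by
    induction y0 using OnePoint.rec with
    | infty => exact Eventually.of_forall fun k w hw => absurd hw (OnePoint.infty_ne_coe _)
    | coe q =>
      have hq : 0 < ‖q‖ := norm_pos_iff.2 fun h => hy0' (by rw [h])
      have h1 : Tendsto (fun k : ℕ => (4 : ℝ) ^ k * ‖q‖) atTop atTop :=
        (tendsto_pow_atTop_atTop_of_one_lt (by norm_num)).atTop_mul_const hq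
      filter_upwards [h1.eventually (eventually_ge_atTop 12)] with k hk w hw
      rw [← OnePoint.coe_injective hw, norm_mul, norm_pow]
      simpa using hk
  obtain ⟨T, hT⟩ := eventually_atTop.1 (hdiv.and hfar)
  obtain ⟨k, hk, -, γ', hγ', hu⟩ := hFr 1 V0 V0_nhds 1 one_pos T
  obtain ⟨hd, hf⟩ := hT k hk.le
  have hgood : γ' ∉ {γ : G | γ ∈ Γ ∧ ∃ x ∈ K, act (γ * h) x = OnePoint.infty} ∪
      ⋃ i ∈ Iio 8, {γ : G | γ ∈ Γ ∧ ∃ x ∈ K, act (γ * h) x = ((ze ^ i : ℂ) : OnePoint ℂ)} := by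
    intro hbad
    obtain ⟨-, u2, -, u4⟩ := hu
    rcases hd γ' hbad with h1 | h1
    · linarith
    · have := norm_sub_norm_le ((γ' * h * sc k) 1 1) 1
      rw [norm_one] at this
      linarith
  rw [mem_union, not_or] at hgood
  obtain ⟨hg1, hg2⟩ := hgood
  -- the big translate
  set L : Set (OnePoint ℂ) := act (γ' * h) '' K with hL
  have hLc : IsCompact L := hK.image (cont_act _)
  have hLp : IsPreconnected L := hc.image _ (cont_act _).continuousOn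
  have hLinf : OnePoint.infty ∉ L := by
    rintro ⟨x, hx, e⟩
    exact hg1 ⟨hγ', x, hx, e⟩
  have hLz : ∀ i < 8, ((ze ^ i : ℂ) : OnePoint ℂ) ∉ L := by
    rintro i hi ⟨x, hx, e⟩
    exact hg2 (mem_iUnion₂.2 ⟨i, hi, hγ', x, hx, e⟩)
  set K' : Set ℂ := ((↑) : ℂ → OnePoint ℂ) ⁻¹' L with hK'
  have himg : ((↑) : ℂ → OnePoint ℂ) '' K' = L := by
    refine image_preimage_eq_of_subset fun x hx => ?_
    induction x using OnePoint.rec with
    | infty => exact absurd hx hLinf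
    | coe v => exact ⟨v, rfl⟩
  have hind := OnePoint.isOpenEmbedding_coe (X := ℂ)
  have hK'c : IsCompact K' := by
    rw [hind.isInducing.isCompact_iff, himg]
    exact hLc
  have hK'p : IsPreconnected K' := by
    rw [← hind.isInducing.isPreconnected_image, himg]
    exact hLp
  -- the two points
  obtain ⟨n, hn, hn'⟩ := V0_zero hu
  have hnK : n ∈ K' := by
    refine ⟨_, h0, ?_⟩
    rw [act_mul, act_sc_zero] at hn
    exact hn
  have hy1 : act (γ' * h) y0 ∈ L := ⟨y0, hy0, rfl⟩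
  obtain ⟨n', hn1⟩ : ∃ n' : ℂ, act (γ' * h) y0 = (n' : OnePoint ℂ) := by
    rw [← himg] at hy1
    obtain ⟨v, -, hv⟩ := hy1
    exact ⟨v, hv.symm⟩
  have hn'K : n' ∈ K' := by
    show (n' : OnePoint ℂ) ∈ L
    rw [← hn1]
    exact hy1
  have hn10 : 10 ≤ ‖n'‖ := by
    refine V0_far hu (y := act (sc k)⁻¹ y0) ?_ ?_
    · intro w hw
      have e : y0 = act (sc k) (w : OnePoint ℂ) := by rw [← hw, act_act_inv]
      have h1 : sc k 1 0 * w + sc k 1 1 ≠ 0 := by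
        rw [sc_10, sc_11]
        simp
      rw [act_coe_of_ne h1] at e
      have h2 := hf _ e
      have e2 : (4 : ℂ) ^ k * mob (sc k) w = w := by
        unfold mob
        rw [sc_00, sc_01, sc_10, sc_11, zero_mul, zero_add, add_zero]
        have h4 : (4 : ℂ) ^ k = 2 ^ k * 2 ^ k := by rw [← mul_pow]; norm_num
        have h5 : (1 / 2 : ℂ) ^ k * 2 ^ k = 1 := by rw [← mul_pow]; norm_num
        have h6 : (2 : ℂ) ^ k ≠ 0 := pow_ne_zero _ two_ne_zero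
        rw [h4, mul_div_assoc', div_eq_iff h6]
        calc 2 ^ k * 2 ^ k * ((1 / 2) ^ k * w) = ((1 / 2 : ℂ) ^ k * 2 ^ k) * (2 ^ k * w) := by ring
          _ = w * 2 ^ k := by rw [h5]; ring
      rw [e2] at h2
      exact h2
    · rw [act_mul, act_act_inv]
      exact hn1
  -- `ε`
  have hε : ∀ᶠ δ : ℝ in 𝓝[>] 0, ∀ i ∈ Iio 8, ∀ z ∈ K', δ < ‖z - ze ^ i‖ := by
    rw [Filter.eventually_all_finite (Set.finite_Iio 8)]
    intro i hi
    have h1 : (K'ᶜ : Set ℂ) ∈ 𝓝 (ze ^ i) := hK'c.isClosed.isOpen_compl.mem_nhds (hLz i hi)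
    obtain ⟨r, hr, hball⟩ := Metric.mem_nhds_iff.1 h1
    filter_upwards [Ioo_mem_nhdsGT hr] with δ hδ z hz
    by_contra hcon
    push Not at hcon
    exact hball (mem_ball_iff_norm.2 (hcon.trans_lt hδ.2)) hz
  obtain ⟨ε, hε1, hε2, hε3⟩ := (hε.and (Ioc_mem_nhdsGT (show (0 : ℝ) < 1 / 20 by norm_num))).exists
  have hS := fun i => small_piece hF H hb0 hC hFr hγ' hε2 hε3 i
  choose S hS1 hS2 hS3 hS4 hS5 hS6 using hS
  refine hLoop K' n n' ε S hK'c hK'p hnK hn'K hn' hn10 hε2 hε3 (fun i _ => ⟨hS1 i, hS2 i, hS3 i,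
    hS4 i, hS5 i, ?_⟩) (fun i hi => hε1 i hi)
  rw [Set.disjoint_left]
  rintro z hz ⟨y, hy, e⟩
  exact hS6 i z hz y hy e.symm

/-- (ROW 5) -/
theorem row5 (hG : Gen2Stmt) (hLoop : LoopStmt) : Main2Stmt := by
  intro Γ _ _ K hK hc hn p hp
  -- move `p` to `0`
  obtain ⟨g, hg⟩ : ∃ g : G, act g p = ((0 : ℂ) : OnePoint ℂ) := by
    induction p using OnePoint.rec with
    | infty =>
      refine ⟨⟨!![0, 1; -1, 0], by rw [Matrix.det_fin_two_of]; norm_num⟩, ?_⟩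
      set w : G := ⟨!![0, 1; -1, 0], by rw [Matrix.det_fin_two_of]; norm_num⟩ with hw
      have w00 : w 0 0 = 0 := rfl
      have w10 : w 1 0 = -1 := rfl
      rw [act_infty, w10, w00, if_neg (by norm_num), zero_div]
    | coe z =>
      refine ⟨tr (-z), ?_⟩
      have h1 : tr (-z) 1 0 * z + tr (-z) 1 1 ≠ 0 := by
        rw [tr_10, tr_11]
        simp
      rw [act_coe_of_ne h1]
      congr 1
      unfold mob
      rw [tr_00, tr_01, tr_10, tr_11]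
      ring
  set K1 : Set (OnePoint ℂ) := act g '' K with hK1
  have hK1c : IsCompact K1 := hK.image (cont_act _)
  have hK1p : IsPreconnected K1 := hc.isPreconnected.image _ (cont_act _).continuousOn
  have h0 : ((0 : ℂ) : OnePoint ℂ) ∈ K1 := ⟨p, hp, hg⟩
  obtain ⟨y, hy, hyp⟩ := hn.exists_ne p
  have hy1 : act g y ∈ K1 := ⟨y, hy, rfl⟩
  have hy1' : act g y ≠ ((0 : ℂ) : OnePoint ℂ) := by
    intro e
    rw [← hg] at e
    apply hyp
    rw [← act_inv_act g y, e, act_inv_act]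
  -- the pieces
  have hpc : ∀ᶠ k : ℕ in atTop, ∃ C : Set ℂ, IsCompact C ∧ IsPreconnected C ∧
      (∀ z ∈ C, (z : OnePoint ℂ) ∈ K1 ∧ ‖(4 : ℂ) ^ k * z‖ ≤ 1) ∧ (0 : ℂ) ∈ C ∧
      ∃ z ∈ C, ‖(4 : ℂ) ^ k * z‖ = 1 := by
    have hev : ∀ᶠ k : ℕ in atTop,
        act g y ∉ ((↑) : ℂ → OnePoint ℂ) '' Metric.ball (0 : ℂ) ((1 / 4) ^ k) := by
      generalize act g y = y0 at hy1'
      induction y0 using OnePoint.rec with
      | infty =>
        refine Eventually.of_forall fun k => ?_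
        rintro ⟨v, -, hv⟩
        exact OnePoint.infty_ne_coe _ hv.symm
      | coe q =>
        have hq : 0 < ‖q‖ := norm_pos_iff.2 fun h => hy1' (by rw [h])
        have h1 : Tendsto (fun k : ℕ => (1 / 4 : ℝ) ^ k) atTop (𝓝 0) :=
          tendsto_pow_atTop_nhds_zero_of_lt_one (by norm_num) (by norm_num)
        filter_upwards [h1.eventually (gt_mem_nhds hq)] with k hk
        rintro ⟨v, hv, hv'⟩
        rw [OnePoint.coe_injective hv', mem_ball_zero_iff] at hv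
        linarith
    filter_upwards [hev] with k hk
    obtain ⟨C, c1, c2, c3, c4, z, hz, hz'⟩ := piece hK1c hK1p h0 (r := (1 / 4) ^ k)
      (by positivity) ⟨_, hy1, hk⟩
    have e4 : (4 : ℝ) ^ k * (1 / 4) ^ k = 1 := by rw [← mul_pow]; norm_num
    have n4 : ‖(4 : ℂ) ^ k‖ = 4 ^ k := by rw [norm_pow]; norm_num
    refine ⟨C, c1, c2, fun v hv => ⟨(c3 v hv).1, ?_⟩, c4, z, hz, ?_⟩
    · rw [norm_mul, n4, ← e4]
      exact mul_le_mul_of_nonneg_left (c3 v hv).2 (by positivity)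
    · rw [norm_mul, n4, hz', e4]
  -- the directions
  have hbex : ∀ k : ℕ, ∃ β : ℂ, ‖β‖ = 1 ∧ ((∃ C : Set ℂ, IsCompact C ∧ IsPreconnected C ∧
      (∀ z ∈ C, (z : OnePoint ℂ) ∈ K1 ∧ ‖(4 : ℂ) ^ k * z‖ ≤ 1) ∧ (0 : ℂ) ∈ C ∧
      ∃ z ∈ C, ‖(4 : ℂ) ^ k * z‖ = 1) → ∃ C : Set ℂ, IsCompact C ∧ IsPreconnected C ∧
      (∀ z ∈ C, (z : OnePoint ℂ) ∈ K1 ∧ ‖(4 : ℂ) ^ k * z‖ ≤ 1) ∧ (0 : ℂ) ∈ C ∧
      ∃ z ∈ C, (4 : ℂ) ^ k * z = β) := by
    intro k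
    by_cases hk : ∃ C : Set ℂ, IsCompact C ∧ IsPreconnected C ∧
      (∀ z ∈ C, (z : OnePoint ℂ) ∈ K1 ∧ ‖(4 : ℂ) ^ k * z‖ ≤ 1) ∧ (0 : ℂ) ∈ C ∧
      ∃ z ∈ C, ‖(4 : ℂ) ^ k * z‖ = 1
    · obtain ⟨C, c1, c2, c3, c4, z, hz, hz'⟩ := hk
      exact ⟨_, hz', fun _ => ⟨C, c1, c2, c3, c4, z, hz, rfl⟩⟩
    · exact ⟨1, norm_one, fun h => absurd h hk⟩
  choose b hb hbC using hbex
  have hC : ∀ᶠ k : ℕ in atTop, ∃ C : Set ℂ, IsCompact C ∧ IsPreconnected C ∧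
      (∀ z ∈ C, (z : OnePoint ℂ) ∈ K1 ∧ ‖(4 : ℂ) ^ k * z‖ ≤ 1) ∧ (0 : ℂ) ∈ C ∧
      ∃ z ∈ C, (4 : ℂ) ^ k * z = b k := hpc.mono fun k hk => hbC k hk
  obtain ⟨b0, hb0, E, hE1, hE2, hE3⟩ := hG Γ b hb
  refine ⟨E, hE1, hE2, ?_⟩
  intro h β hβ hh
  intro hfin
  have H : Wan Γ {γ : G | γ ∈ Γ ∧ ∃ x ∈ K, ∃ y ∈ K, act γ (act h x) = act h y} K1
      (h * g⁻¹) := by
    rintro γ hγ h1 _ ⟨x, hx, rfl⟩ _ ⟨z, hz, rfl⟩
    rw [act_mul, act_mul, act_inv_act, act_inv_act]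
    intro e
    exact h1 ⟨hγ, x, hx, z, hz, e⟩
  have hh1 : act (h * g⁻¹) ((0 : ℂ) : OnePoint ℂ) = (β : OnePoint ℂ) := by
    rw [act_mul, ← hg, act_inv_act]
    exact hh
  exact core hLoop hfin hK1c hK1p h0 hy1 hy1' H hb0 hC (hE3 (h * g⁻¹) β hβ hh1)

end Pool.Agent.H33.GC
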