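import Pool.Agent.H33.GC.Row1
import Pool.Agent.H60.GC.Row2
import Pool.Agent.H7.GC.Row3
import Pool.Agent.H61.GC.Row4
import Pool.Agent.H33.GC.Row5

/-!
Project GC (MP_90715c_gt): the main theorem.
-/

namespace Pool.Agent.H33.GC

theorem main2 : Main2Stmt :=
  row5 (row3b (Pool.Agent.H7.GC.row3 (Pool.Agent.H60.GC.b0 row1))) Pool.Agent.H61.GC.row4

end Pool.Agent.H33.GC
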