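import Pool.Agent.H33.GC.Stm

/-!
Row 1 of project GC (MP_90715c_gt): ergodicity on `Λ \ H` (Mautner phenomenon).
-/

open Set Filter Topology MeasureTheory
open scoped ENNReal Pointwise

set_option linter.unusedSectionVars false

namespace Pool.Agent.H33.GC

section abs

variable {H : Type} [Group H] [TopologicalSpace H] [IsTopologicalGroup H] [LocallyCompactSpace H]
    [T2Space H] [SecondCountableTopology H] [MeasurableSpace H] [BorelSpace H]

/-- the indicator function -/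
noncomputable def ci (A : Set H) (x : H) : ℝ≥0∞ := A.indicator (fun _ => 1) x

theorem ci_le (A : Set H) (x : H) : ci A x ≤ 1 := by
  unfold ci
  exact indicator_le_self' (fun _ _ => zero_le) x

theorem ci_mem {A : Set H} {x : H} (h : x ∈ A) : ci A x = 1 := by
  unfold ci
  rw [indicator_of_mem h]

theorem ci_not {A : Set H} {x : H} (h : x ∉ A) : ci A x = 0 := by
  unfold ci
  rw [indicator_of_notMem h]

theorem ci_meas {A : Set H} (hA : MeasurableSet A) : Measurable (ci A) :=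
  measurable_const.indicator hA

/-- right translate -/
def rt (g : H) (A : Set H) : Set H := (fun x => x * g⁻¹) ⁻¹' A

theorem mem_rt {g x : H} {A : Set H} : x ∈ rt g A ↔ x * g⁻¹ ∈ A := Iff.rfl

theorem rt_rt (g h : H) (A : Set H) : rt g (rt h A) = rt (h * g) A := by
  ext x
  simp only [mem_rt, mul_inv_rev, mul_assoc]

theorem rt_one (A : Set H) : rt 1 A = A := by
  ext x
  simp [mem_rt]

theorem rt_diff (g : H) (A B : Set H) : rt g (A \ B) = rt g A \ rt g B := rfl

theorem rt_meas (g : H) {A : Set H} (hA : MeasurableSet A) : MeasurableSet (rt g A) :=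
  (measurable_mul_const g⁻¹) hA

variable (Λ : Subgroup H) (C : Set H)

/-- the number of `l` with `l x ∈ C` -/
noncomputable def NN (x : H) : ℝ≥0∞ := ∑' l : Λ, ci C (l * x)

/-- left invariance -/
def LI (A : Set H) : Prop := ∀ l ∈ Λ, ∀ x ∈ A, l * x ∈ A

variable {Λ C}

theorem LI.mem_iff {A : Set H} (h : LI Λ A) {l : H} (hl : l ∈ Λ) {x : H} : l * x ∈ A ↔ x ∈ A := by
  constructor
  · intro h1
    have := h l⁻¹ (Λ.inv_mem hl) _ h1
    rwa [inv_mul_cancel_left] at this
  · exact h l hl x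

theorem LI.rt {A : Set H} (h : LI Λ A) (g : H) : LI Λ (rt g A) := by
  intro l hl x hx
  rw [mem_rt] at hx ⊢
  rw [mul_assoc]
  exact h l hl _ hx

theorem LI.diff {A B : Set H} (hA : LI Λ A) (hB : LI Λ B) : LI Λ (A \ B) := by
  intro l hl x hx
  exact ⟨hA l hl x hx.1, fun h => hx.2 ((hB.mem_iff hl).1 h)⟩

theorem LI.inter {A B : Set H} (hA : LI Λ A) (hB : LI Λ B) : LI Λ (A ∩ B) := by
  intro l hl x hx
  exact ⟨hA l hl x hx.1, hB l hl x hx.2⟩

theorem LI.ci {A : Set H} (h : LI Λ A) {l : H} (hl : l ∈ Λ) (x : H) :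
    GC.ci A (l * x) = GC.ci A x := by
  by_cases hx : x ∈ A
  · rw [ci_mem hx, ci_mem ((h.mem_iff hl).2 hx)]
  · rw [ci_not hx, ci_not fun h' => hx ((h.mem_iff hl).1 h')]

theorem NN_inv {l : H} (hl : l ∈ Λ) (x : H) : NN Λ C (l * x) = NN Λ C x := by
  unfold NN
  rw [← (Equiv.mulRight (⟨l, hl⟩ : Λ)).tsum_eq (fun m : Λ => ci C ((m : H) * x))]
  refine tsum_congr fun m => ?_
  simp [mul_assoc]

theorem NN_one_le (hcov : ∀ x : H, ∃ l ∈ Λ, l * x ∈ C) (x : H) : 1 ≤ NN Λ C x := by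
  obtain ⟨l, hl, h⟩ := hcov x
  have := ENNReal.le_tsum (f := fun m : Λ => ci C ((m : H) * x)) ⟨l, hl⟩
  simp only [ci_mem h] at this
  exact this

theorem NN_ne_top [DiscreteTopology Λ] (hC : IsCompact C) (x : H) : NN Λ C x ≠ ∞ := by
  have hcl : IsClosed (Λ : Set H) := Subgroup.isClosed_of_discrete
  have hfin : {l : Λ | (l : H) * x ∈ C}.Finite := by
    have h1 : IsCompact ((fun y : H => y * x) ⁻¹' C) :=
      (Homeomorph.mulRight x).isClosedEmbedding.isCompact_preimage hC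
    have h2 : IsCompact (((↑) : Λ → H) ⁻¹' ((fun y : H => y * x) ⁻¹' C)) :=
      (hcl.isClosedEmbedding_subtypeVal).isCompact_preimage h1
    exact h2.finite_of_discrete
  unfold NN
  rw [tsum_eq_sum (s := hfin.toFinset)]
  · refine (ENNReal.sum_lt_top.2 fun l _ => ?_).ne
    exact (ci_le _ _).trans_lt ENNReal.one_lt_top
  · intro l hl
    refine ci_not fun h => hl ?_
    rw [Finite.mem_toFinset]
    exact h

theorem NN_meas [DiscreteTopology Λ] (hC : IsCompact C) : Measurable (NN Λ C) := by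
  have : Countable Λ := TopologicalSpace.separableSpace_iff_countable.1 inferInstance
  unfold NN
  exact Measurable.tsum fun l =>
    (ci_meas hC.isClosed.measurableSet).comp (measurable_const_mul (l : H))

variable (Λ C) in
/-- the finite invariant measure of a left invariant set -/
noncomputable def mm (μ : Measure H) (A : Set H) : ℝ≥0∞ :=
  ∫⁻ x, ci C x * (ci A x * (NN Λ C x)⁻¹) ∂μ

variable {μ : Measure H}

theorem mm_le (hC : IsCompact C) (hcov : ∀ x : H, ∃ l ∈ Λ, l * x ∈ C)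
    {A : Set H} (hA : MeasurableSet A) : mm Λ C μ A ≤ μ (A ∩ C) := by
  unfold mm
  calc ∫⁻ x, ci C x * (ci A x * (NN Λ C x)⁻¹) ∂μ ≤ ∫⁻ x, ci (A ∩ C) x ∂μ := by
        refine lintegral_mono fun x => ?_
        by_cases h1 : x ∈ C
        · by_cases h2 : x ∈ A
          · have h12 : x ∈ A ∩ C := ⟨h2, h1⟩
            rw [ci_mem h1, ci_mem h2, ci_mem h12, one_mul, one_mul]
            exact ENNReal.inv_le_one.2 (NN_one_le hcov x)
          · rw [ci_not h2]
            simp
        · rw [ci_not h1]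
          simp
    _ = μ (A ∩ C) := by
        unfold ci
        rw [lintegral_indicator (hA.inter hC.isClosed.measurableSet)]
        simp

theorem mm_congr {A B : Set H} (h : A =ᵐ[μ] B) : mm Λ C μ A = mm Λ C μ B := by
  unfold mm
  refine lintegral_congr_ae ?_
  filter_upwards [h] with x hx
  have : ci A x = ci B x := by
    have hx' : x ∈ A ↔ x ∈ B := iff_of_eq hx
    by_cases h1 : x ∈ A
    · rw [ci_mem h1, ci_mem (hx'.1 h1)]
    · rw [ci_not h1, ci_not fun h => h1 (hx'.2 h)]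
  rw [this]

theorem mm_add [DiscreteTopology Λ] (hC : IsCompact C) {A B : Set H} (hA : MeasurableSet A)
    (hB : MeasurableSet B) : mm Λ C μ A = mm Λ C μ (A ∩ B) + mm Λ C μ (A \ B) := by
  unfold mm
  rw [← lintegral_add_left]
  · refine lintegral_congr fun x => ?_
    by_cases h1 : x ∈ A
    · by_cases h2 : x ∈ B
      · have h12 : x ∈ A ∩ B := ⟨h1, h2⟩
        have h13 : x ∉ A \ B := fun h => h.2 h2
        rw [ci_mem h1, ci_mem h12, ci_not h13]
        simp
      · have h12 : x ∉ A ∩ B := fun h => h2 h.2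
        have h13 : x ∈ A \ B := ⟨h1, h2⟩
        rw [ci_mem h1, ci_not h12, ci_mem h13]
        simp
    · have h12 : x ∉ A ∩ B := fun h => h1 h.1
      have h13 : x ∉ A \ B := fun h => h1 h.1
      rw [ci_not h1, ci_not h12, ci_not h13]
      simp
  · exact (ci_meas hC.isClosed.measurableSet).mul ((ci_meas (hA.inter hB)).mul (NN_meas hC).inv)

theorem null_of_mm [μ.IsMulLeftInvariant] [DiscreteTopology Λ] (hC : IsCompact C)
    (hcov : ∀ x : H, ∃ l ∈ Λ, l * x ∈ C) {A : Set H} (hA : MeasurableSet A) (hL : LI Λ A)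
    (h : mm Λ C μ A = 0) : μ A = 0 := by
  have : Countable Λ := TopologicalSpace.separableSpace_iff_countable.1 inferInstance
  have hmeas : Measurable fun x => ci C x * (ci A x * (NN Λ C x)⁻¹) :=
    (ci_meas hC.isClosed.measurableSet).mul ((ci_meas hA).mul (NN_meas hC).inv)
  unfold mm at h
  rw [lintegral_eq_zero_iff hmeas] at h
  have h1 : μ (C ∩ A) = 0 := by
    rw [measure_eq_zero_iff_ae_notMem]
    filter_upwards [h] with x hx hx'
    rw [ci_mem hx'.1, ci_mem hx'.2, one_mul, one_mul] at hx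
    exact NN_ne_top hC x (ENNReal.inv_eq_zero.1 hx)
  have h2 : A ⊆ ⋃ l : Λ, (fun x => (l : H) * x) ⁻¹' (C ∩ A) := by
    intro x hx
    obtain ⟨l, hl, hlx⟩ := hcov x
    exact mem_iUnion.2 ⟨⟨l, hl⟩, hlx, hL l hl x hx⟩
  refine measure_mono_null h2 (measure_iUnion_null fun l => ?_)
  rw [measure_preimage_mul, h1]

theorem mm_rt [SFinite μ] [μ.IsMulLeftInvariant] [μ.IsMulRightInvariant] [DiscreteTopology Λ]
    (hC : IsCompact C) (hcov : ∀ x : H, ∃ l ∈ Λ, l * x ∈ C) {A : Set H} (hA : MeasurableSet A)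
    (hL : LI Λ A) (g : H) : mm Λ C μ (rt g A) = mm Λ C μ A := by
  have : Countable Λ := TopologicalSpace.separableSpace_iff_countable.1 inferInstance
  have hCm := hC.isClosed.measurableSet
  have hNm : Measurable (NN Λ C) := NN_meas hC
  have hone : ∀ x, NN Λ C x * (NN Λ C x)⁻¹ = 1 := fun x =>
    ENNReal.mul_inv_cancel (lt_of_lt_of_le one_pos (NN_one_le hcov x)).ne' (NN_ne_top hC x)
  -- shift by `g`
  have s1 : mm Λ C μ (rt g A) =
      ∫⁻ y, ci C (y * g) * (ci A y * (NN Λ C (y * g))⁻¹) ∂μ := by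
    unfold mm
    rw [← lintegral_mul_right_eq_self (fun x => ci C x * (ci (rt g A) x * (NN Λ C x)⁻¹)) g]
    refine lintegral_congr fun y => ?_
    have : ci (rt g A) (y * g) = ci A y := by
      by_cases h : y ∈ A
      · rw [ci_mem h, ci_mem]
        rw [mem_rt, mul_inv_cancel_right]
        exact h
      · rw [ci_not h, ci_not]
        rw [mem_rt, mul_inv_cancel_right]
        exact h
    rw [this]
  rw [s1]
  set F : H → ℝ≥0∞ := fun y => ci C (y * g) * (ci A y * (NN Λ C (y * g))⁻¹) with hF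
  have hFm : Measurable F := ((ci_meas hCm).comp (measurable_mul_const g)).mul
    ((ci_meas hA).mul (hNm.comp (measurable_mul_const g)).inv)
  have s2 : ∫⁻ y, F y ∂μ = ∑' l : Λ, ∫⁻ y, ci C ((l : H) * y) * ((NN Λ C y)⁻¹ * F y) ∂μ := by
    rw [← lintegral_tsum]
    · refine lintegral_congr fun y => ?_
      rw [ENNReal.tsum_mul_right]
      have : ∑' l : Λ, ci C ((l : H) * y) = NN Λ C y := rfl
      rw [this, ← mul_assoc, hone, one_mul]
    · intro l
      exact (((ci_meas hCm).comp (measurable_const_mul (l : H))).mul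
        (hNm.inv.mul hFm)).aemeasurable
  rw [s2]
  have s3 : ∀ l : Λ, ∫⁻ y, ci C ((l : H) * y) * ((NN Λ C y)⁻¹ * F y) ∂μ =
      ∫⁻ z, ci C z * ((NN Λ C z)⁻¹ * (ci A z * (NN Λ C (z * g))⁻¹)) *
        ci C ((((l⁻¹ : Λ)) : H) * (z * g)) ∂μ := by
    intro l
    rw [← lintegral_mul_left_eq_self (fun z => ci C z * ((NN Λ C z)⁻¹ * (ci A z *
      (NN Λ C (z * g))⁻¹)) * ci C ((((l⁻¹ : Λ)) : H) * (z * g))) (l : H)]
    refine lintegral_congr fun y => ?_
    have e1 : (((l⁻¹ : Λ)) : H) * ((l : H) * y * g) = y * g := by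
      rw [← mul_assoc, ← mul_assoc, Subgroup.coe_inv, inv_mul_cancel, one_mul]
    rw [e1, mul_assoc (l : H) y g, NN_inv l.2, NN_inv l.2, hL.ci l.2]
    simp only [hF]
    ring
  rw [tsum_congr s3, ← lintegral_tsum]
  · unfold mm
    refine lintegral_congr fun z => ?_
    rw [ENNReal.tsum_mul_left]
    have e2 : ∑' l : Λ, ci C ((((l⁻¹ : Λ)) : H) * (z * g)) = NN Λ C (z * g) := by
      unfold NN
      exact (Equiv.inv Λ).tsum_eq (fun l : Λ => ci C ((l : H) * (z * g)))
    rw [e2]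
    have e3 : (NN Λ C (z * g))⁻¹ * NN Λ C (z * g) = 1 := by rw [mul_comm]; exact hone _
    calc ci C z * ((NN Λ C z)⁻¹ * (ci A z * (NN Λ C (z * g))⁻¹)) * NN Λ C (z * g)
        = ci C z * (ci A z * (NN Λ C z)⁻¹) * ((NN Λ C (z * g))⁻¹ * NN Λ C (z * g)) := by ring
      _ = _ := by rw [e3, mul_one]
  · intro l
    exact (((ci_meas hCm).mul (hNm.inv.mul ((ci_meas hA).mul
      (hNm.comp (measurable_mul_const g)).inv))).mul
      ((ci_meas hCm).comp ((measurable_const_mul _).comp (measurable_mul_const g)))).aemeasurable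

theorem mm_cont [μ.IsHaarMeasure] [μ.IsMulRightInvariant] (hC : IsCompact C)
    (hcov : ∀ x : H, ∃ l ∈ Λ, l * x ∈ C) {A : Set H} (hA : MeasurableSet A)
    {ε : ℝ≥0∞} (hε : ε ≠ 0) : ∀ᶠ g in 𝓝 (1 : H), mm Λ C μ (rt g A \ A) ≤ ε := by
  obtain ⟨C', hC', hCC'⟩ := exists_compact_superset hC
  have hC'm := hC'.isClosed.measurableSet
  have hBm : MeasurableSet (A ∩ C') := hA.inter hC'm
  have hBfin : μ (A ∩ C') ≠ ∞ := ((measure_mono inter_subset_right).trans_lt hC'.measure_lt_top).ne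
  have hε2 : ε / 2 ≠ 0 := (ENNReal.half_pos hε).ne'
  obtain ⟨K, hKB, hK, hKε⟩ := hBm.exists_isCompact_sdiff_lt hBfin hε2
  obtain ⟨U, hKU, hU, hUε⟩ := hK.exists_isOpen_lt_add (μ := μ) hε2
  obtain ⟨V1, hV1, hKV⟩ := compact_open_separated_mul_right hK hU hKU
  obtain ⟨V2, hV2, hCV⟩ := compact_open_separated_mul_right hC isOpen_interior hCC'
  have hinv : ∀ᶠ g in 𝓝 (1 : H), g⁻¹ ∈ V2 := by
    have h1 : Tendsto (fun g : H => g⁻¹) (𝓝 1) (𝓝 1) := by
      have := (continuous_inv (G := H)).tendsto 1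
      rwa [inv_one] at this
    exact h1 hV2
  filter_upwards [hV1, hinv] with g hg1 hg2
  have hKm := hK.isClosed.measurableSet
  calc mm Λ C μ (rt g A \ A) ≤ μ ((rt g A \ A) ∩ C) := mm_le hC hcov ((rt_meas g hA).diff hA)
    _ ≤ μ ((rt g K \ K) ∪ rt g ((A ∩ C') \ K)) := by
        refine measure_mono ?_
        rintro x ⟨⟨hx1, hx2⟩, hx3⟩
        have hx4 : x * g⁻¹ ∈ C' := interior_subset (hCV (mul_mem_mul hx3 hg2))
        by_cases h : x * g⁻¹ ∈ K
        · exact Or.inl ⟨h, fun h' => hx2 (hKB h').1⟩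
        · exact Or.inr ⟨⟨hx1, hx4⟩, h⟩
    _ ≤ μ (rt g K \ K) + μ (rt g ((A ∩ C') \ K)) := measure_union_le _ _
    _ ≤ ε / 2 + ε / 2 := by
        refine add_le_add ?_ ?_
        · calc μ (rt g K \ K) ≤ μ (U \ K) := by
                refine measure_mono fun x hx => ⟨?_, hx.2⟩
                have := hKV (mul_mem_mul hx.1 hg1)
                rwa [inv_mul_cancel_right] at this
            _ = μ U - μ K := measure_sdiff hKU hKm.nullMeasurableSet hK.measure_lt_top.ne
            _ ≤ ε / 2 := by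
                rw [tsub_le_iff_left]
                exact hUε.le
        · have h1 : μ (rt g ((A ∩ C') \ K)) = μ ((A ∩ C') \ K) := measure_preimage_mul_right μ _ _
          rw [h1]
          exact hKε.le
    _ = ε := ENNReal.add_halves ε

theorem rt_ae [SFinite μ] [μ.IsMulLeftInvariant] [μ.IsMulRightInvariant] {A B : Set H} (g : H)
    (h : A =ᵐ[μ] B) : rt g A =ᵐ[μ] rt g B := by
  have h1 : MeasurePreserving (fun x : H => x * g⁻¹) μ μ := measurePreserving_mul_right μ g⁻¹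
  exact h1.quasiMeasurePreserving.preimage_ae_eq h

/-- the almost stabiliser -/
def ST (μ : Measure H) [SFinite μ] [μ.IsMulLeftInvariant] [μ.IsMulRightInvariant] (O : Set H) :
    Subgroup H where
  carrier := {g | rt g O =ᵐ[μ] O}
  one_mem' := by
    show rt 1 O =ᵐ[μ] O
    exact Filter.EventuallyEq.of_eq (rt_one O)
  mul_mem' := by
    intro g h hg hh
    have h1 : rt (g * h) O =ᵐ[μ] rt h O := by
      rw [← rt_rt]
      exact rt_ae h hg
    exact h1.trans hh
  inv_mem' := by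
    intro g hg
    have h1 : rt g⁻¹ (rt g O) =ᵐ[μ] rt g⁻¹ O := rt_ae g⁻¹ hg
    rw [rt_rt, mul_inv_cancel, rt_one] at h1
    exact h1.symm

theorem mem_ST [SFinite μ] [μ.IsMulLeftInvariant] [μ.IsMulRightInvariant] {O : Set H} {g : H} :
    g ∈ ST μ O ↔ rt g O =ᵐ[μ] O := Iff.rfl

/-- from one inclusion to equality -/
theorem ae_of_diff [SFinite μ] [μ.IsHaarMeasure] [μ.IsMulRightInvariant]
    [DiscreteTopology Λ] (hC : IsCompact C) (hcov : ∀ x : H, ∃ l ∈ Λ, l * x ∈ C) {O : Set H}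
    (hO : MeasurableSet O) (hL : LI Λ O) {g : H} (h : mm Λ C μ (rt g O \ O) = 0) :
    rt g O =ᵐ[μ] O := by
  have hfin : mm Λ C μ O ≠ ∞ :=
    ((mm_le hC hcov hO).trans_lt ((measure_mono inter_subset_right).trans_lt
      hC.measure_lt_top)).ne
  have h1 : μ (rt g O \ O) = 0 :=
    null_of_mm hC hcov ((rt_meas g hO).diff hO) ((hL.rt g).diff hL) h
  have h2 := mm_add (Λ := Λ) (μ := μ) hC (rt_meas g hO) hO
  rw [h, add_zero, mm_rt hC hcov hO hL] at h2
  have h3 := mm_add (Λ := Λ) (μ := μ) hC hO (rt_meas g hO)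
  rw [inter_comm O, ← h2] at h3
  have h4 : mm Λ C μ (O \ rt g O) = 0 := by
    have h5 : mm Λ C μ O + 0 = mm Λ C μ O + mm Λ C μ (O \ rt g O) := by rw [add_zero]; exact h3
    exact ((ENNReal.add_right_inj hfin).1 h5).symm
  have h6 : μ (O \ rt g O) = 0 :=
    null_of_mm hC hcov (hO.diff (rt_meas g hO)) (hL.diff (hL.rt g)) h4
  exact ae_eq_set.2 ⟨h1, h6⟩

/-- Mautner -/
theorem mautner [SFinite μ] [μ.IsHaarMeasure] [μ.IsMulRightInvariant]
    [DiscreteTopology Λ] (hC : IsCompact C) (hcov : ∀ x : H, ∃ l ∈ Λ, l * x ∈ C) {O : Set H}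
    (hO : MeasurableSet O) (hL : LI Λ O) {n : H} {s : ℕ → H} (hs : ∀ k, s k ∈ ST μ O)
    (hn : Tendsto (fun k => (s k)⁻¹ * n * s k) atTop (𝓝 1)) : n ∈ ST μ O := by
  refine ae_of_diff hC hcov hO hL ?_
  refine le_antisymm (ENNReal.le_of_forall_pos_le_add ?_) zero_le
  intro ε hε _
  rw [zero_add]
  have hε' : (ε : ℝ≥0∞) ≠ 0 := by exact_mod_cast hε.ne'
  obtain ⟨k, hk⟩ := (hn.eventually (mm_cont (μ := μ) hC hcov hO hε')).exists
  have h1 : mm Λ C μ (rt n O \ O) = mm Λ C μ (rt (s k) (rt n O \ O)) :=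
    (mm_rt hC hcov ((rt_meas n hO).diff hO) ((hL.rt n).diff hL) (s k)).symm
  have h2 : rt (s k) (rt n O \ O) =ᵐ[μ] (rt ((s k)⁻¹ * n * s k) O \ O : Set H) := by
    rw [rt_diff, rt_rt]
    have e1 : n * s k = s k * ((s k)⁻¹ * n * s k) := by group
    rw [e1, ← rt_rt]
    exact (rt_ae _ (hs k)).diff (hs k)
  rw [h1, mm_congr h2]
  exact hk

end abs

/-- (ROW 1) -/
theorem row1 : AbsStmt := by
  intro H _ _ _ _ _ _ _ _ μ _ _ Λ _ C hC hcov a O hO hL ha h0 hgen
  have hLO : LI Λ O := hL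
  have hS : ST μ O = ⊤ := by
    have haS : a ∈ ST μ O := by
      refine ae_of_diff hC hcov hO hLO ?_
      have h1 : rt a O \ O ⊆ ∅ := by
        rintro x ⟨hx1, hx2⟩
        have := ha _ hx1
        rw [inv_mul_cancel_right] at this
        exact hx2 this
      rw [subset_empty_iff.1 h1]
      unfold mm
      simp [ci]
    rw [eq_top_iff, ← hgen, Subgroup.closure_le]
    intro n hn
    rcases hn with hn | hn
    · exact mautner hC hcov hO hLO (s := fun k => a ^ k) (fun k => (ST μ O).pow_mem haS k) hn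
    · refine mautner hC hcov hO hLO (s := fun k => (a ^ k)⁻¹)
        (fun k => (ST μ O).inv_mem ((ST μ O).pow_mem haS k)) ?_
      simpa using hn
  have hall : ∀ g : H, rt g O =ᵐ[μ] O := by
    intro g
    have : g ∈ ST μ O := by rw [hS]; trivial
    exact this
  have hOc : MeasurableSet Oᶜ := hO.compl
  have h1 : ∫⁻ g, ∫⁻ x, ci Oᶜ x * ci O (x * g) ∂μ ∂μ = 0 := by
    rw [lintegral_eq_zero_of_ae_eq_zero]
    refine Eventually.of_forall fun g => ?_
    show ∫⁻ x, ci Oᶜ x * ci O (x * g) ∂μ = 0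
    rw [lintegral_eq_zero_of_ae_eq_zero]
    filter_upwards [hall g⁻¹] with x hx
    have hx' : x * g ∈ O ↔ x ∈ O := by
      have h2 : x ∈ rt g⁻¹ O ↔ x ∈ O := iff_of_eq hx
      rw [mem_rt, inv_inv] at h2
      exact h2
    show ci Oᶜ x * ci O (x * g) = 0
    by_cases h3 : x ∈ O
    · have h4 : x ∉ Oᶜ := fun h => h h3
      rw [ci_not h4, zero_mul]
    · rw [ci_not (fun h => h3 (hx'.1 h)), mul_zero]
  have hm : Measurable (Function.uncurry fun (g x : H) => ci Oᶜ x * ci O (x * g)) :=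
    ((ci_meas hOc).comp measurable_snd).mul
      ((ci_meas hO).comp (measurable_snd.mul measurable_fst))
  rw [lintegral_lintegral_swap hm.aemeasurable] at h1
  have h2 : ∫⁻ x, ∫⁻ g, ci Oᶜ x * ci O (x * g) ∂μ ∂μ = μ Oᶜ * μ O := by
    have h3 : ∀ x, ∫⁻ g, ci Oᶜ x * ci O (x * g) ∂μ = ci Oᶜ x * μ O := by
      intro x
      have hmx : Measurable fun g : H => ci O (x * g) := (ci_meas hO).comp (measurable_const_mul x)
      rw [lintegral_const_mul _ hmx, lintegral_mul_left_eq_self (ci O) x]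
      congr 1
      unfold ci
      rw [lintegral_indicator hO]
      simp
    rw [lintegral_congr h3, lintegral_mul_const _ (ci_meas hOc)]
    congr 1
    unfold ci
    rw [lintegral_indicator hOc]
    simp
  rw [h2] at h1
  exact (mul_eq_zero.1 h1).resolve_right h0

end Pool.Agent.H33.GC
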