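import Pool.Agent.H33.GC.Stm2

/-!
Row 3b of project GC (MP_90715c_gt).
-/

open Matrix Set Filter Topology MeasureTheory

namespace Pool.Agent.H33.GC

open Pool.Agent.H90.WC

theorem sc_00 (k : ℕ) : (sc k) 0 0 = (1 / 2 : ℂ) ^ k := rfl
theorem sc_01 (k : ℕ) : (sc k) 0 1 = (0 : ℂ) := rfl
theorem sc_10 (k : ℕ) : (sc k) 1 0 = (0 : ℂ) := rfl
theorem sc_11 (k : ℕ) : (sc k) 1 1 = (2 : ℂ) ^ k := rfl
theorem tr_00 (β : ℂ) : (tr β) 0 0 = (1 : ℂ) := rfl
theorem tr_01 (β : ℂ) : (tr β) 0 1 = β := rfl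
theorem tr_10 (β : ℂ) : (tr β) 1 0 = (0 : ℂ) := rfl
theorem tr_11 (β : ℂ) : (tr β) 1 1 = (1 : ℂ) := rfl

/-- conjugation by `sc k` contracts lower triangular matrices to the diagonal -/
theorem conj_sc {q m : G} (h01 : q 0 1 = 0) (m00 : m 0 0 = q 0 0) (m01 : m 0 1 = 0)
    (m10 : m 1 0 = 0) (m11 : m 1 1 = q 1 1) :
    Tendsto (fun k : ℕ => (sc k)⁻¹ * q * sc k) atTop (𝓝 m) := by
  have hk : ∀ k : ℕ, (2 : ℂ) ^ k * (1 / 2) ^ k = 1 := fun k => by
    rw [← mul_pow]; norm_num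
  rw [tendsto_iff]
  intro i j
  fin_cases i <;> fin_cases j
  · have e : ∀ k : ℕ, ((sc k)⁻¹ * q * sc k) 0 0 = m 0 0 := by
      intro k
      rw [mul_00, mul_00, mul_01, inv_00, inv_01, sc_00, sc_01, sc_10, sc_11, m00]
      calc _ = (2 : ℂ) ^ k * (1 / 2) ^ k * q 0 0 := by ring
        _ = _ := by rw [hk, one_mul]
    exact tendsto_const_nhds.congr fun k => (e k).symm
  · have e : ∀ k : ℕ, ((sc k)⁻¹ * q * sc k) 0 1 = m 0 1 := by
      intro k
      rw [mul_01, mul_00, mul_01, inv_00, inv_01, sc_01, sc_11, m01, h01]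
      ring
    exact tendsto_const_nhds.congr fun k => (e k).symm
  · have e : ∀ k : ℕ, ((sc k)⁻¹ * q * sc k) 1 0 = q 1 0 * (1 / 4) ^ k := by
      intro k
      rw [mul_10, mul_10, mul_11, inv_10, inv_11, sc_00, sc_10]
      have : (1 / 4 : ℂ) ^ k = (1 / 2) ^ k * (1 / 2) ^ k := by rw [← mul_pow]; norm_num
      rw [this]
      ring
    have h1 : Tendsto (fun k : ℕ => q 1 0 * (1 / 4 : ℂ) ^ k) atTop (𝓝 (q 1 0 * 0)) := by
      refine Tendsto.const_mul _ (tendsto_pow_atTop_nhds_zero_of_norm_lt_one ?_)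
      norm_num
    rw [mul_zero] at h1
    show Tendsto _ _ (𝓝 (m 1 0))
    rw [m10]
    exact h1.congr fun k => (e k).symm
  · have e : ∀ k : ℕ, ((sc k)⁻¹ * q * sc k) 1 1 = m 1 1 := by
      intro k
      rw [mul_11, mul_10, mul_11, inv_10, inv_11, sc_00, sc_01, sc_10, sc_11, m11]
      calc _ = (2 : ℂ) ^ k * (1 / 2) ^ k * q 1 1 := by ring
        _ = _ := by rw [hk, one_mul]
    exact tendsto_const_nhds.congr fun k => (e k).symm

theorem row3b (hG : GenStmt) : Gen2Stmt := by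
  intro Γ _ _ b hb
  obtain ⟨b0, hb0, E, hE1, hE2, hE3⟩ := hG Γ b hb
  refine ⟨b0, hb0, E, hE1, hE2, ?_⟩
  intro h β hβ hh f V hV ε hε T
  -- the matrix `h`
  have hd : h 1 1 ≠ 0 := by
    intro h0
    rw [act_coe_of_eq (by rw [h0]; ring)] at hh
    exact OnePoint.infty_ne_coe _ hh
  have hβ' : h 0 1 = β * h 1 1 := by
    rw [act_coe_of_ne (by rw [mul_zero, zero_add]; exact hd)] at hh
    have h1 := OnePoint.coe_injective hh
    unfold mob at h1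
    rw [mul_zero, mul_zero, zero_add, zero_add, div_eq_iff hd] at h1
    exact h1
  set q : G := (tr β)⁻¹ * h with hq
  have q00 : q 0 0 = h 0 0 - β * h 1 0 := by
    rw [hq, mul_00, inv_00, inv_01, tr_11, tr_01]; ring
  have q01 : q 0 1 = 0 := by
    rw [hq, mul_01, inv_00, inv_01, tr_11, tr_01, hβ']; ring
  have q11 : q 1 1 = h 1 1 := by
    rw [hq, mul_11, inv_10, inv_11, tr_10, tr_00]; ring
  have hdet : q 0 0 * q 1 1 = 1 := by
    have := det_eq q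
    rw [q01, zero_mul, sub_zero] at this
    exact this
  let m : G := ⟨!![q 0 0, 0; 0, q 1 1], by rw [Matrix.det_fin_two_of]; simpa using hdet⟩
  have hm : Tendsto (fun k : ℕ => (sc k)⁻¹ * q * sc k) atTop (𝓝 m) :=
    conj_sc q01 rfl rfl rfl rfl
  -- neighbourhoods
  have hmul : Tendsto (fun p : G × G => p.1 * p.2) (𝓝 (f * m⁻¹) ×ˢ 𝓝 m) (𝓝 f) := by
    have h1 := (continuous_mul (M := G)).tendsto (f * m⁻¹, m)
    rw [nhds_prod_eq] at h1
    have e : (f * m⁻¹, m).1 * (f * m⁻¹, m).2 = f := inv_mul_cancel_right f m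
    rw [e] at h1
    exact h1
  obtain ⟨V1, hV1, V2, hV2, hVV⟩ := mem_prod_iff.1 (hmul hV)
  obtain ⟨T2, hT2⟩ := eventually_atTop.1 (hm hV2)
  obtain ⟨k, hk, hbk, γ, hγ, hγV⟩ := hE3 β hβ (f * m⁻¹) V1 hV1 ε hε (max T T2)
  refine ⟨k, lt_of_le_of_lt (le_max_left _ _) hk, hbk, γ, hγ, ?_⟩
  have h1 := hVV (mk_mem_prod hγV (hT2 k ((le_max_right _ _).trans hk.le)))
  have e : γ * tr β * sc k * ((sc k)⁻¹ * q * sc k) = γ * h * sc k := by
    rw [hq]
    group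
  have h2 : γ * tr β * sc k * ((sc k)⁻¹ * q * sc k) ∈ V := h1
  rwa [e] at h2

end Pool.Agent.H33.GC
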