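import Pool.Agent.H90.WC.Basic

/-!
Wandering continua in general position (problem MP_90715c_gt): almost every translate `K + β` of
a plane continuum is not wandering. Statements of the rows; the proof is in the team note.
-/

open Matrix Set Filter Topology MeasureTheory

namespace Pool.Agent.H33.GC

open Pool.Agent.H90.WC

/-- `z ↦ z + β`. -/
def tr (β : ℂ) : G := ⟨!![1, β; 0, 1], by simp [Matrix.det_fin_two]⟩

/-- `z ↦ z / 4 ^ k`. -/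
noncomputable def sc (k : ℕ) : G := ⟨!![(1 / 2) ^ k, 0; 0, 2 ^ k], by
  rw [Matrix.det_fin_two]
  simp⟩

/-- `exp (2 π i / 8)`. -/
noncomputable def ze : ℂ := Complex.exp (((Real.pi / 4 : ℝ) : ℂ) * Complex.I)

/-- (ROW 1) abstract ergodic theorem (Mautner phenomenon) for right translation by `a` on
`Λ \ H`. -/
def AbsStmt : Prop :=
  ∀ (H : Type) [Group H] [TopologicalSpace H] [IsTopologicalGroup H] [LocallyCompactSpace H]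
    [T2Space H] [SecondCountableTopology H] [MeasurableSpace H] [BorelSpace H]
    (μ : Measure H) [μ.IsHaarMeasure] [μ.IsMulRightInvariant] (Λ : Subgroup H)
    [DiscreteTopology Λ] (C : Set H), IsCompact C → (∀ x : H, ∃ l ∈ Λ, l * x ∈ C) →
    ∀ (a : H) (O : Set H), MeasurableSet O → (∀ l ∈ Λ, ∀ x ∈ O, l * x ∈ O) →
      (∀ x ∈ O, x * a ∈ O) → μ O ≠ 0 →
      Subgroup.closure {n : H | Tendsto (fun k : ℕ => (a ^ k)⁻¹ * n * a ^ k) atTop (𝓝 1) ∨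
        Tendsto (fun k : ℕ => a ^ k * n * (a ^ k)⁻¹) atTop (𝓝 1)} = ⊤ →
      μ Oᶜ = 0

/-- (ROW 2) the limit direction `b0` of the unit vectors `b k`. From (ROW 1) for `Fin m → G` and
compactness of the circle. -/
def B0Stmt : Prop :=
  ∀ (Γ : Subgroup G) [DiscreteTopology Γ] [CompactSpace (G ⧸ Γ)] [MeasurableSpace G]
    [BorelSpace G] (μ : Measure G) [μ.IsHaarMeasure] (b : ℕ → ℂ), (∀ k, ‖b k‖ = 1) →
    ∃ b0 : ℂ, ‖b0‖ = 1 ∧ ∀ ε > (0 : ℝ), ∀ W : Set G, MeasurableSet W → μ W ≠ 0 →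
      ∀ V : Set G, IsOpen V → V.Nonempty → ∀ T : ℕ, ∃ k > T, ‖b k - b0‖ < ε ∧
        ∃ h ∈ W, ∃ γ ∈ Γ, γ * h * sc k ∈ V

/-- (ROW 3) the exceptional set of translations. -/
def GenStmt : Prop :=
  ∀ (Γ : Subgroup G) [DiscreteTopology Γ] [CompactSpace (G ⧸ Γ)] (b : ℕ → ℂ),
    (∀ k, ‖b k‖ = 1) → ∃ b0 : ℂ, ‖b0‖ = 1 ∧ ∃ E : Set ℂ, IsMeagre E ∧ volume E = 0 ∧
      ∀ β ∉ E, ∀ f : G, ∀ V ∈ 𝓝 f, ∀ ε > (0 : ℝ), ∀ T : ℕ, ∃ k > T, ‖b k - b0‖ < ε ∧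
        ∃ γ ∈ Γ, γ * tr β * sc k ∈ V

/-- (ROW 4) a chain of eight continua around the unit circle, with small gaps, separates points
close to `0` from points close to infinity. -/
def LoopStmt : Prop :=
  ∀ (K : Set ℂ) (n n' : ℂ) (ε : ℝ) (S : ℕ → Set ℂ), IsCompact K → IsPreconnected K → n ∈ K →
    n' ∈ K → ‖n‖ ≤ 1 / 10 → 10 ≤ ‖n'‖ → 0 < ε → ε ≤ 1 / 20 →
    (∀ i < 8, IsCompact (S i) ∧ IsPreconnected (S i) ∧ (∀ z ∈ S i, ‖z - ze ^ i‖ ≤ 4 / 5) ∧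
      (∃ z ∈ S i, ‖z - ze ^ i‖ ≤ ε) ∧ (∃ z ∈ S i, ‖z - ze ^ (i + 1)‖ ≤ ε) ∧
      Disjoint (S i) K) →
    (∀ i < 8, ∀ z ∈ K, ε < ‖z - ze ^ i‖) → False

/-- (MAIN). -/
def MainStmt : Prop :=
  ∀ (Γ : Subgroup G) [DiscreteTopology Γ] [CompactSpace (G ⧸ Γ)] (K : Set ℂ), IsCompact K →
    IsConnected K → K.Nontrivial → ∃ E : Set ℂ, IsMeagre E ∧ volume E = 0 ∧ ∀ β ∉ E,
      ∃ γ ∈ Γ, γ ≠ 1 ∧ γ ≠ -1 ∧ ∃ x ∈ K, ∃ y ∈ K,
        act γ ((x + β : ℂ) : OnePoint ℂ) = ((y + β : ℂ) : OnePoint ℂ)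

end Pool.Agent.H33.GC
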