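import Pool.Agent.H33.GC.Stm

/-!
Stronger form of project GC (MP_90715c_gt): only the position of ONE point of the continuum
matters.
-/

open Matrix Set Filter Topology MeasureTheory

namespace Pool.Agent.H33.GC

open Pool.Agent.H90.WC

/-- (ROW 3b) all Moebius maps `h` with `h 0 = β`. -/
def Gen2Stmt : Prop :=
  ∀ (Γ : Subgroup G) [DiscreteTopology Γ] [CompactSpace (G ⧸ Γ)] (b : ℕ → ℂ),
    (∀ k, ‖b k‖ = 1) → ∃ b0 : ℂ, ‖b0‖ = 1 ∧ ∃ E : Set ℂ, IsMeagre E ∧ volume E = 0 ∧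
      ∀ (h : G) (β : ℂ), β ∉ E → act h ((0 : ℂ) : OnePoint ℂ) = (β : OnePoint ℂ) →
        ∀ f : G, ∀ V ∈ 𝓝 f, ∀ ε > (0 : ℝ), ∀ T : ℕ, ∃ k > T, ‖b k - b0‖ < ε ∧
          ∃ γ ∈ Γ, γ * h * sc k ∈ V

/-- (MAIN 2). `E` depends on `Γ`, `K`, `p`. For all Moebius maps `h` with `h p = β ∉ E` the
continuum `h K` meets infinitely many of its translates. -/
def Main2Stmt : Prop :=
  ∀ (Γ : Subgroup G) [DiscreteTopology Γ] [CompactSpace (G ⧸ Γ)] (K : Set (OnePoint ℂ)),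
    IsCompact K → IsConnected K → K.Nontrivial → ∀ p ∈ K, ∃ E : Set ℂ, IsMeagre E ∧
      volume E = 0 ∧ ∀ (h : G) (β : ℂ), β ∉ E → act h p = (β : OnePoint ℂ) →
        {γ : G | γ ∈ Γ ∧ ∃ x ∈ K, ∃ y ∈ K, act γ (act h x) = act h y}.Infinite

end Pool.Agent.H33.GC
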